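import Pool.Agent.Helper95.AF.Defs
import Pool.Agent.Helper4.AF.Near
import Pool.Agent.Helper82.AN.Eta

/-! # Project AF, block NT: a finite net of parameters (second proof) -/

set_option autoImplicit false
open MeasureTheory Real Set Filter Topology
open scoped ENNReal

namespace Pool.Agent.Helper94.AF

open Pool.Agent.Helper95.AF
open Pool.Agent.Helper18.UC (nn LL sqo rep toT)
open Pool.Agent.Helper46.QP (TT Td)
open Pool.Agent.Helper82.AN (Ik Ow lawL wt bas eta Hw sq SepR)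

variable {d : ℕ}

/-- a finite net for maps to integer vectors -/
theorem cells {X ι : Type*} [Fintype ι] [DecidableEq ι] (S : Set X) (g : X → ι → ℤ) (B : ℕ)
    (hg : ∀ u ∈ S, ∀ i, |g u i| ≤ B) :
    ∃ N : Finset X, (N.card : ℝ) ≤ (2 * B + 1) ^ Fintype.card ι ∧ ↑N ⊆ S ∧ ∀ u ∈ S, ∃ v ∈ N, g v = g u := by
  classical
  rcases S.eq_empty_or_nonempty with h0 | ⟨u₀, hu₀⟩
  · exact ⟨∅, by simp; positivity, by simp, fun u hu => by rw [h0] at hu; exact absurd hu (Set.notMem_empty u)⟩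
  · refine ⟨(Fintype.piFinset fun _ : ι => Finset.Icc (-(B : ℤ)) B).image
      (fun c => if h : ∃ u ∈ S, g u = c then h.choose else u₀), ?_, ?_, ?_⟩
    · have h1 : (Fintype.piFinset fun _ : ι => Finset.Icc (-(B : ℤ)) B).card = (2 * B + 1) ^ Fintype.card ι := by
        rw [Fintype.card_piFinset, Finset.prod_const, Int.card_Icc, Finset.card_univ]
        congr 1
        omega
      have h2 := Finset.card_image_le (s := Fintype.piFinset fun _ : ι => Finset.Icc (-(B : ℤ)) B)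
        (f := fun c => if h : ∃ u ∈ S, g u = c then h.choose else u₀)
      rw [h1] at h2
      exact_mod_cast h2
    · intro v hv
      rw [Finset.coe_image] at hv
      obtain ⟨c, _, rfl⟩ := hv
      simp only
      split_ifs with h
      · exact h.choose_spec.1
      · exact hu₀
    · intro u hu
      have hex : ∃ u' ∈ S, g u' = g u := ⟨u, hu, rfl⟩
      refine ⟨hex.choose, Finset.mem_image.2 ⟨g u, ?_, by rw [dif_pos hex]⟩, hex.choose_spec.2⟩
      rw [Fintype.mem_piFinset]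
      intro i
      have := abs_le.1 (hg u hu i)
      rw [Finset.mem_Icc]
      exact this

/-- distances on the torus are at most `1` -/
theorem dist_le_one (x y : Td d) : dist x y ≤ 1 := by
  rw [dist_pi_le_iff zero_le_one]
  intro m
  rw [dist_eq_norm]
  have := AddCircle.norm_le_half_period (1 : ℝ) (x := x m - y m) one_ne_zero
  rw [abs_one] at this
  linarith

/-- common Hoelder constants -/
theorem hold {k : ℕ} {e : Fin k → Td d → ℝ} (he : ∀ i, Ho (e i)) : ∃ K r : ℝ, 1 ≤ K ∧ 0 < r ∧ r ≤ 1 ∧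
    ∀ i, (∀ x y, |e i x - e i y| ≤ K * dist x y ^ r) ∧ ∀ x, |e i x| ≤ K := by
  choose K' r' hr' h' using he
  set T : ℝ := ∑ i, 1 / r' i with hT
  have hT0 : 0 ≤ T := Finset.sum_nonneg fun i _ => (div_pos one_pos (hr' i)).le
  set K : ℝ := 1 + ∑ i, (|K' i| + |e i 0|) with hK
  have hKi : ∀ i, |K' i| + |e i 0| ≤ ∑ i, (|K' i| + |e i 0|) := fun i =>
    Finset.single_le_sum (f := fun i => |K' i| + |e i 0|) (fun j _ => by positivity) (Finset.mem_univ i)
  have hS0 : 0 ≤ ∑ i, (|K' i| + |e i 0|) := Finset.sum_nonneg fun j _ => by positivity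
  refine ⟨K, 1 / (1 + T), by rw [hK]; linarith, by positivity, by rw [div_le_one (by positivity)]; linarith, fun i => ?_⟩
  have hr : 1 / (1 + T) ≤ r' i := by
    have h1 : 1 / r' i ≤ T := Finset.single_le_sum (f := fun i => 1 / r' i)
      (fun j _ => (div_pos one_pos (hr' j)).le) (Finset.mem_univ i)
    rw [div_le_iff₀ (by positivity)]
    have h2 := mul_le_mul_of_nonneg_left h1 (hr' i).le
    rw [mul_one_div_cancel (hr' i).ne'] at h2
    have := hr' i
    nlinarith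
  have hKK : |K' i| ≤ K := by
    have := hKi i
    have := abs_nonneg (e i 0)
    rw [hK]
    linarith
  have h3 : ∀ x y, |e i x - e i y| ≤ |K' i| * dist x y ^ (1 / (1 + T)) := by
    intro x y
    have h4 : dist x y ^ r' i ≤ dist x y ^ (1 / (1 + T)) :=
      Real.rpow_le_rpow_of_exponent_ge' dist_nonneg (dist_le_one x y) (by positivity) hr
    calc |e i x - e i y| ≤ K' i * dist x y ^ r' i := h' i x y
      _ ≤ |K' i| * dist x y ^ r' i := mul_le_mul_of_nonneg_right (le_abs_self _) (by positivity)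
      _ ≤ _ := mul_le_mul_of_nonneg_left h4 (abs_nonneg _)
  refine ⟨fun x y => (h3 x y).trans (mul_le_mul_of_nonneg_right hKK (by positivity)), fun x => ?_⟩
  have h5 := h3 x 0
  have h6 : dist x 0 ^ (1 / (1 + T)) ≤ 1 := Real.rpow_le_one dist_nonneg (dist_le_one x 0) (by positivity)
  have h7 : |K' i| * dist x 0 ^ (1 / (1 + T)) ≤ |K' i| := mul_le_of_le_one_right (abs_nonneg _) h6
  have h8 : |e i x| ≤ |e i x - e i 0| + |e i 0| := by
    have := abs_add_le (e i x - e i 0) (e i 0)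
    rwa [sub_add_cancel] at this
  have := hKi i
  rw [hK]
  linarith

/-- the force for two parameters -/
theorem frc_near {γ : ℝ} {k : ℕ} {e : Fin k → Td d → ℝ} {K r : ℝ} (hK : 1 ≤ K) (hr : 0 < r) (hr1 : r ≤ 1)
    (he : ∀ i, (∀ x y, |e i x - e i y| ≤ K * dist x y ^ r) ∧ ∀ x, |e i x| ≤ K) {w : Ow d} {Λ μ : ℝ} (hΛ : 1 ≤ Λ)
    (hμ0 : 0 < μ) (hμ1 : μ ≤ 1) (hη : ∀ x, |eta γ w x| ≤ Λ) (hη' : ∀ x y, |eta γ w x - eta γ w y| ≤ Λ * dist x y)
    {U U' : Fin (k + 1) → ℝ} (hU : ∀ i, |U i - U' i| ≤ μ) (hU' : ∀ i, |U' i| ≤ Λ) {α α' : Td d} (hα : dist α α' ≤ μ)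
    {n j : ℕ} (hn : 1 ≤ n) (hj : j ≤ n) (θ : Td d) :
    |frc γ e U w (θ + j • α) - frc γ e U' w (θ + j • α')| ≤ 2 * (k * K + 1) * Λ ^ 2 * n * μ ^ r := by
  have hn1 : (1 : ℝ) ≤ n := by exact_mod_cast hn
  have hμr : μ ≤ μ ^ r := by
    have := Real.rpow_le_rpow_of_exponent_ge' hμ0.le hμ1 hr.le hr1
    rwa [Real.rpow_one] at this
  have hμr0 : 0 < μ ^ r := Real.rpow_pos_of_pos hμ0 _
  set x := θ + j • α with hx
  set x' := θ + j • α' with hx'
  have hd : dist x x' ≤ n * μ := by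
    rw [hx, hx', dist_add_left, dist_eq_norm, ← nsmul_sub]
    refine (norm_nsmul_le).trans ?_
    rw [← dist_eq_norm]
    have h1 : (j : ℝ) ≤ n := by exact_mod_cast hj
    exact mul_le_mul h1 hα dist_nonneg (by positivity)
  have hdr : dist x x' ^ r ≤ n * μ ^ r := by
    calc dist x x' ^ r ≤ (n * μ) ^ r := Real.rpow_le_rpow dist_nonneg hd hr.le
      _ = (n : ℝ) ^ r * μ ^ r := Real.mul_rpow (by positivity) hμ0.le
      _ ≤ n * μ ^ r := by
        refine mul_le_mul_of_nonneg_right ?_ hμr0.le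
        have := Real.rpow_le_rpow_of_exponent_le hn1 hr1
        rwa [Real.rpow_one] at this
  have h1 : ∀ i : Fin k, |U i.succ * e i x - U' i.succ * e i x'| ≤ 2 * K * Λ * n * μ ^ r := by
    intro i
    have e1 : U i.succ * e i x - U' i.succ * e i x' = (U i.succ - U' i.succ) * e i x + U' i.succ * (e i x - e i x') := by
      ring
    rw [e1]
    refine (abs_add_le _ _).trans ?_
    rw [abs_mul, abs_mul]
    have e2 : |U i.succ - U' i.succ| * |e i x| ≤ μ * K :=
      mul_le_mul (hU _) ((he i).2 x) (abs_nonneg _) hμ0.le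
    have e3 : |U' i.succ| * |e i x - e i x'| ≤ Λ * (K * (n * μ ^ r)) :=
      mul_le_mul (hU' _) (((he i).1 x x').trans (mul_le_mul_of_nonneg_left hdr (by linarith))) (abs_nonneg _) (by linarith)
    have e4 : μ * K ≤ Λ * (K * (n * μ ^ r)) := by
      have e5 : (1 : ℝ) ≤ Λ * n := by nlinarith
      calc μ * K ≤ μ ^ r * K := mul_le_mul_of_nonneg_right hμr (by linarith)
        _ = 1 * (K * μ ^ r) := by ring
        _ ≤ (Λ * n) * (K * μ ^ r) := mul_le_mul_of_nonneg_right e5 (by positivity)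
        _ = Λ * (K * (n * μ ^ r)) := by ring
    calc _ ≤ μ * K + Λ * (K * (n * μ ^ r)) := add_le_add e2 e3
      _ ≤ 2 * (Λ * (K * (n * μ ^ r))) := by linarith
      _ = _ := by ring
  have h2 : |U 0 * eta γ w x - U' 0 * eta γ w x'| ≤ 2 * Λ ^ 2 * n * μ ^ r := by
    have e1 : U 0 * eta γ w x - U' 0 * eta γ w x' = (U 0 - U' 0) * eta γ w x + U' 0 * (eta γ w x - eta γ w x') := by
      ring
    rw [e1]
    refine (abs_add_le _ _).trans ?_
    rw [abs_mul, abs_mul]
    have e2 : |U 0 - U' 0| * |eta γ w x| ≤ μ * Λ := mul_le_mul (hU _) (hη x) (abs_nonneg _) hμ0.le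
    have e3 : |U' 0| * |eta γ w x - eta γ w x'| ≤ Λ * (Λ * (n * μ)) :=
      mul_le_mul (hU' _) ((hη' x x').trans (mul_le_mul_of_nonneg_left hd (by linarith))) (abs_nonneg _) (by linarith)
    have e4 : μ * Λ ≤ Λ ^ 2 * n * μ ^ r := by
      have e5 : Λ ≤ Λ ^ 2 * n := by nlinarith
      calc μ * Λ ≤ μ ^ r * Λ := mul_le_mul_of_nonneg_right hμr (by linarith)
        _ ≤ μ ^ r * (Λ ^ 2 * n) := mul_le_mul_of_nonneg_left e5 hμr0.le
        _ = _ := by ring
    have e6 : Λ * (Λ * (n * μ)) ≤ Λ ^ 2 * n * μ ^ r := by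
      calc Λ * (Λ * (n * μ)) = (Λ ^ 2 * n) * μ := by ring
        _ ≤ (Λ ^ 2 * n) * μ ^ r := mul_le_mul_of_nonneg_left hμr (by positivity)
    calc _ ≤ μ * Λ + Λ * (Λ * (n * μ)) := add_le_add e2 e3
      _ ≤ Λ ^ 2 * n * μ ^ r + Λ ^ 2 * n * μ ^ r := add_le_add e4 e6
      _ = _ := by ring
  have h3 : frc γ e U w x - frc γ e U' w x' = (∑ i : Fin k, (U i.succ * e i x - U' i.succ * e i x')) +
      (U 0 * eta γ w x - U' 0 * eta γ w x') := by
    unfold frc
    rw [Finset.sum_sub_distrib]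
    ring
  rw [h3]
  refine (abs_add_le _ _).trans ?_
  have h4 : |∑ i : Fin k, (U i.succ * e i x - U' i.succ * e i x')| ≤ k * (2 * K * Λ * n * μ ^ r) := by
    refine (Finset.abs_sum_le_sum_abs _ _).trans ?_
    refine (Finset.sum_le_sum fun i _ => h1 i).trans ?_
    rw [Finset.sum_const, Finset.card_univ, Fintype.card_fin, nsmul_eq_mul]
  have h5 : k * (2 * K * Λ * n * μ ^ r) ≤ 2 * (k * K) * Λ ^ 2 * n * μ ^ r := by
    have e5 : Λ ≤ Λ ^ 2 := by nlinarith
    calc (k : ℝ) * (2 * K * Λ * n * μ ^ r) = (2 * (k * K) * n * μ ^ r) * Λ := by ring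
      _ ≤ (2 * (k * K) * n * μ ^ r) * Λ ^ 2 := mul_le_mul_of_nonneg_left e5 (by positivity)
      _ = _ := by ring
  calc _ ≤ 2 * (k * K) * Λ ^ 2 * n * μ ^ r + 2 * Λ ^ 2 * n * μ ^ r := add_le_add (h4.trans h5) h2
    _ = _ := by ring

/-- the exponents -/
theorem num_net {n : ℕ} {L c C q : ℝ} (hn : 1 ≤ n) (hL : 1 ≤ L) (hc : 0 ≤ c) (hC : 1 ≤ C)
    (hq : q = 5 + c + 2 * C * (2 + Real.log C)) :
    c + 2 * (L + 1) + Real.log n + C * (n + 1) * (Real.log C + L + 1) ≤ q * n * L := by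
  have hn1 : (1 : ℝ) ≤ n := by exact_mod_cast hn
  have hlC := Real.log_nonneg hC
  have h1 : L ≤ n * L := by nlinarith
  have h2 : (n : ℝ) ≤ n * L := by nlinarith
  have h0 : (1 : ℝ) ≤ n * L := by linarith
  have h3 : c ≤ c * (n * L) := by nlinarith
  have h4 : Real.log n ≤ n * L := by
    have := Real.log_le_sub_one_of_pos (show (0 : ℝ) < n by linarith)
    linarith
  have h5 : C * (n + 1) * (Real.log C + L + 1) ≤ 2 * C * (2 + Real.log C) * (n * L) := by
    have e1 : Real.log C + L + 1 ≤ (2 + Real.log C) * L := by nlinarith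
    have e2 : (n : ℝ) + 1 ≤ 2 * n := by linarith
    calc C * (n + 1) * (Real.log C + L + 1) ≤ C * (2 * n) * ((2 + Real.log C) * L) := by gcongr
      _ = _ := by ring
  rw [hq]
  linarith

/-- **NT** -/
theorem net_ex (γ : ℝ) {k : ℕ} {e : Fin k → Td d → ℝ} (he : ∀ i, Ho (e i)) : ∃ G : ℝ, 1 ≤ G ∧ ∀ (n : ℕ) (L : ℝ), 1 ≤ n → 1 ≤ L →
    ∀ A : Set (Td d), ∃ N : Finset (ℝ × (Fin (k + 1) → ℝ) × Td d), (N.card : ℝ) ≤ Real.exp (G * n * L) ∧ ↑N ⊆ Bx k L A ∧
      ∀ u ∈ Bx k L A, ∃ v ∈ N, ∀ w : Ow d, Hw γ w ≤ ENNReal.ofReal (Real.exp L) →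
        (∀ x y, |eta γ w x - eta γ w y| ≤ Real.exp L * dist x y) → ∀ (θ : Td d) (m m' : ℕ), m + m' ≤ n → ∀ z,
          |Real.log (nn (pM u.1 (shb (sq u.2.2 (frc γ e u.2.1 w) θ) m) m' z)) -
            Real.log (nn (pM v.1 (shb (sq v.2.2 (frc γ e v.2.1 w) θ) m) m' z))| ≤ 1 := by
  obtain ⟨C, hC, hnear⟩ := Pool.Agent.Helper4.AF.pM_near
  obtain ⟨K, r, hK, hr, hr1, hhold⟩ := hold he
  set c : ℝ := Real.log (2 * (k * K + 1)) with hc
  have hk0 : 0 ≤ (k : ℝ) * K := by positivity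
  have hc0 : 0 ≤ c := Real.log_nonneg (by linarith)
  set q : ℝ := 5 + c + 2 * C * (2 + Real.log C) with hq
  have hlC := Real.log_nonneg hC
  have hq5 : 5 ≤ q := by
    have : 0 ≤ 2 * C * (2 + Real.log C) := by positivity
    rw [hq]
    linarith
  set g : ℝ := q / r with hg
  have hg5 : 5 ≤ g := by
    rw [hg, le_div_iff₀ hr]
    nlinarith
  refine ⟨(k + 1 + d + 1) * (4 + g), ?_, ?_⟩
  · have h1 : (1 : ℝ) ≤ k + 1 + d + 1 := by
      have : (0 : ℝ) ≤ (k : ℝ) := by positivity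
      have : (0 : ℝ) ≤ (d : ℝ) := by positivity
      linarith
    nlinarith
  intro n L hn hL A
  have hn1 : (1 : ℝ) ≤ n := by exact_mod_cast hn
  have hnL : (1 : ℝ) ≤ n * L := by nlinarith
  set Λ : ℝ := Real.exp (L + 1) with hΛ
  have hΛ1 : 1 ≤ Λ := Real.one_le_exp (by linarith)
  set μ : ℝ := Real.exp (-(g * n * L)) with hμ
  have hμ0 : 0 < μ := Real.exp_pos _
  have hμ1 : μ ≤ 1 := Real.exp_le_one_iff.2 (by
    have : 0 ≤ g * n * L := by positivity
    linarith)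
  set H : ℝ := 2 * (k * K + 1) * Λ ^ 2 * n * μ ^ r with hH
  have hH0 : 0 < H := by positivity
  have hHexp : H = Real.exp (c + 2 * (L + 1) + Real.log n - q * n * L) := by
    rw [hH, Real.exp_sub, Real.exp_add, Real.exp_add, hc, Real.exp_log (by positivity), Real.exp_log (by linarith),
      hμ, ← Real.exp_mul, hΛ, ← Real.exp_nat_mul]
    have e1 : -(g * n * L) * r = -(q * n * L) := by
      rw [hg]
      field_simp
    rw [e1, Real.exp_neg]
    push_cast
    rw [div_eq_mul_inv]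
  have hHC : H * (C * Λ) ^ (C * ((n : ℝ) + 1)) ≤ 1 := by
    have e1 : C * Λ = Real.exp (Real.log C + L + 1) := by
      rw [add_assoc, Real.exp_add, Real.exp_log (by linarith), hΛ]
    rw [hHexp, e1, ← Real.exp_mul, ← Real.exp_add, Real.exp_le_one_iff]
    have := num_net (n := n) hn hL hc0 hC hq
    linarith
  have hμH : μ ≤ H := by
    have hμr : μ ≤ μ ^ r := by
      have := Real.rpow_le_rpow_of_exponent_ge' hμ0.le hμ1 hr.le hr1
      rwa [Real.rpow_one] at this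
    have e1 : (1 : ℝ) ≤ 2 * (k * K + 1) * Λ ^ 2 * n := by
      have e2 : (1 : ℝ) ≤ 2 * (k * K + 1) := by linarith
      have e3 : (1 : ℝ) ≤ Λ ^ 2 := one_le_pow₀ hΛ1
      calc (1 : ℝ) = 1 * 1 * 1 := by ring
        _ ≤ 2 * (k * K + 1) * Λ ^ 2 * n := by gcongr
    rw [hH]
    have := Real.rpow_pos_of_pos hμ0 r
    nlinarith
  -- the cells
  let G : ℝ × (Fin (k + 1) → ℝ) × Td d → Option (Fin (k + 1) ⊕ Fin d) → ℤ := fun u o => match o with
    | none => ⌊u.1 / μ⌋
    | some (Sum.inl i) => ⌊u.2.1 i / μ⌋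
    | some (Sum.inr m) => ⌊((AddCircle.equivIco (1 : ℝ) 0 (u.2.2 m) : ℝ)) / μ⌋
  set B : ℕ := ⌈Λ / μ⌉₊ + 1 with hB
  have hfl : ∀ y : ℝ, |y| ≤ Λ → |⌊y / μ⌋| ≤ (B : ℤ) := by
    intro y hy
    have h1 : |y / μ| ≤ Λ / μ := by
      rw [abs_div, abs_of_pos hμ0]
      exact div_le_div_of_nonneg_right hy hμ0.le
    have h2 := Nat.le_ceil (Λ / μ)
    have h3 := abs_le.1 (h1.trans h2)
    rw [abs_le, hB]
    push_cast
    constructor
    · have h4 : (-(⌈Λ / μ⌉₊ : ℤ)) ≤ ⌊y / μ⌋ := by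
        rw [Int.le_floor]
        push_cast
        exact h3.1
      linarith
    · have h4 : ((⌊y / μ⌋ : ℤ) : ℝ) ≤ ((⌈Λ / μ⌉₊ : ℤ) : ℝ) := by
        push_cast
        exact (Int.floor_le _).trans h3.2
      have h5 : ⌊y / μ⌋ ≤ (⌈Λ / μ⌉₊ : ℤ) := by exact_mod_cast h4
      linarith
  obtain ⟨N, hN1, hN2, hN3⟩ := cells (Bx k L A) G B (by
    rintro u ⟨-, hu1, hu2, -, -⟩ (_ | i | m)
    · exact hfl _ hu1
    · exact hfl _ (hu2 i)
    · refine hfl _ ?_
      have h1 := (AddCircle.equivIco (1 : ℝ) 0 (u.2.2 m)).2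
      have h2 := h1.1
      have h3 := h1.2
      rw [abs_of_nonneg h2]
      linarith)
  have hcell : ∀ x y : ℝ, ⌊x / μ⌋ = ⌊y / μ⌋ → |x - y| ≤ μ := by
    intro x y h
    have h1 := Int.abs_sub_lt_one_of_floor_eq_floor h
    rw [← sub_div, abs_div, abs_of_pos hμ0, div_lt_one hμ0] at h1
    exact h1.le
  refine ⟨N, hN1.trans ?_, hN2, ?_⟩
  · -- the number
    have h1 : (2 * (B : ℝ) + 1) ≤ Real.exp ((4 + g) * (n * L)) := by
      have h2 : (⌈Λ / μ⌉₊ : ℝ) ≤ Λ / μ + 1 := (Nat.ceil_lt_add_one (by positivity)).le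
      have h3 : 1 ≤ Λ / μ := by
        rw [le_div_iff₀ hμ0]
        linarith
      have h4 : 2 * (B : ℝ) + 1 ≤ 7 * (Λ / μ) := by
        rw [hB]
        push_cast
        linarith
      have h5 : (7 : ℝ) ≤ Real.exp 2 := by
        have e2 := Real.exp_one_gt_d9
        have e3 : Real.exp 2 = Real.exp 1 * Real.exp 1 := by
          rw [← Real.exp_add]
          norm_num
        rw [e3]
        nlinarith
      refine h4.trans ?_
      calc 7 * (Λ / μ) ≤ Real.exp 2 * (Λ / μ) := mul_le_mul_of_nonneg_right h5 (by positivity)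
        _ = Real.exp (2 + (L + 1) + g * n * L) := by
            rw [hΛ, hμ, Real.exp_neg, div_inv_eq_mul, Real.exp_add (2 + (L + 1)) (g * n * L), Real.exp_add 2 (L + 1)]
            ring
        _ ≤ _ := by
            refine Real.exp_le_exp.2 ?_
            have h6 : L ≤ n * L := by nlinarith
            linarith
    have h2 : Fintype.card (Option (Fin (k + 1) ⊕ Fin d)) = k + 1 + d + 1 := by
      simp
    rw [h2]
    calc (2 * (B : ℝ) + 1) ^ (k + 1 + d + 1) ≤ (Real.exp ((4 + g) * (n * L))) ^ (k + 1 + d + 1) :=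
          pow_le_pow_left₀ (by positivity) h1 _
      _ = _ := by
          rw [← Real.exp_nat_mul]
          congr 1
          push_cast
          ring
  · intro u hu
    obtain ⟨v, hv, hvu⟩ := hN3 u hu
    have hvB := hN2 hv
    refine ⟨v, hv, fun w hw hlip θ m m' hm z => ?_⟩
    have hG : ∀ o, G v o = G u o := fun o => congrFun hvu o
    have ha : |u.1 - v.1| ≤ μ := hcell _ _ (hG none).symm
    have hU : ∀ i, |u.2.1 i - v.2.1 i| ≤ μ := fun i => hcell _ _ (hG (some (Sum.inl i))).symm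
    have hα : dist u.2.2 v.2.2 ≤ μ := by
      rw [dist_pi_le_iff hμ0.le]
      intro m
      have h1 := hcell _ _ (hG (some (Sum.inr m))).symm
      have h2 := AddCircle.coe_equivIco (p := (1 : ℝ)) (a := 0) (y := u.2.2 m)
      have h3 := AddCircle.coe_equivIco (p := (1 : ℝ)) (a := 0) (y := v.2.2 m)
      have h4 : dist (u.2.2 m) (v.2.2 m) ≤ |((AddCircle.equivIco (1 : ℝ) 0 (u.2.2 m) : ℝ)) -
          ((AddCircle.equivIco (1 : ℝ) 0 (v.2.2 m) : ℝ))| := by
        conv_lhs => rw [← h2, ← h3]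
        rw [dist_eq_norm, ← AddCircle.coe_sub]
        exact QuotientAddGroup.norm_mk_le_norm
      exact h4.trans h1
    have hwf : Hw γ w ≠ ∞ := ne_top_of_le_ne_top ENNReal.ofReal_ne_top hw
    have hLΛ : Real.exp L ≤ Λ := Real.exp_le_exp.2 (by linarith)
    have hη : ∀ x, |eta γ w x| ≤ Λ := fun x =>
      ((Pool.Agent.Helper82.AN.eta_le hwf x).trans (ENNReal.toReal_le_of_le_ofReal (Real.exp_pos _).le hw)).trans hLΛ
    have hη' : ∀ x y, |eta γ w x - eta γ w y| ≤ Λ * dist x y := fun x y =>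
      (hlip x y).trans (mul_le_mul_of_nonneg_right hLΛ dist_nonneg)
    have hpow : H * (C * Λ) ^ (C * ((m' : ℝ) + 1)) ≤ 1 := by
      refine le_trans ?_ hHC
      refine mul_le_mul_of_nonneg_left ?_ hH0.le
      refine Real.rpow_le_rpow_of_exponent_le (by nlinarith) ?_
      have h5 : (m' : ℝ) ≤ n := by exact_mod_cast (by omega : m' ≤ n)
      exact mul_le_mul_of_nonneg_left (by linarith) (by linarith)
    refine (hnear Λ H m' u.1 v.1 _ _ hΛ1 hu.2.1 hvB.2.1 hH0.le (ha.trans hμH) ?_ hpow z).trans hpow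
    intro j hj
    show |frc γ e u.2.1 w (θ + (j + m) • u.2.2) - frc γ e v.2.1 w (θ + (j + m) • v.2.2)| ≤ H
    exact frc_near hK hr hr1 hhold hΛ1 hμ0 hμ1 hη hη' hU hvB.2.2.1 hα hn (by omega) θ

end Pool.Agent.Helper94.AF
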