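import Pool.Agent.Helper95.AF.Defs
import Pool.Agent.Helper33.AF.Conc
import Pool.Agent.Helper82.AN.Eta
import Pool.Agent.Helper82.AN.PtsP

/-! # Project AF, block LP0: the base level, one parameter -/

set_option autoImplicit false
open MeasureTheory Real Set Filter Topology
open scoped ENNReal

namespace Pool.Agent.Helper94.AF

open Pool.Agent.Helper95.AF
open Pool.Agent.Helper18.UC (nn LL sqo rep toT)
open Pool.Agent.Helper46.QP (TT Td)
open Pool.Agent.Helper82.AN (Ik Ow lawL wt bas eta Hw sq SepR)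

variable {d : ℕ}

/-- the exceptional set is measurable -/
theorem meas_sq (α : Td d) (γ : ℝ) {k : ℕ} {e : Fin k → Td d → ℝ} (he : ∀ i, Continuous (e i))
    (U : Fin (k + 1) → ℝ) : Measurable fun p : Ow d × Td d => sq α (frc γ e U p.1) p.2 := by
  refine measurable_pi_lambda _ fun j => ?_
  have h3 : Measurable fun p : Ow d × Td d => p.2 + j • α := measurable_snd.add_const _
  have h2 : Measurable fun p : Ow d × Td d => ((p.1, p.2 + j • α) : Ow d × Td d) := measurable_fst.prodMk h3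
  show Measurable fun p : Ow d × Td d => (∑ i : Fin k, U i.succ * e i (p.2 + j • α)) +
    U 0 * eta γ p.1 (p.2 + j • α)
  refine Measurable.add (Finset.measurable_sum _ fun i _ => ?_) (((Pool.Agent.Helper82.AN.eta_meas γ).comp h2).const_mul _)
  exact ((he i).measurable.comp h3).const_mul _

/-- numbers -/
theorem num0 {n : ℕ} {L E : ℝ} (hn : 20000 ≤ (n : ℝ)) (hL : 1 ≤ L) (hE0 : 0 ≤ E)
    (hE : Real.log 4 + n * E + n / 4000 ≤ n * L / 20000) :
    n * L / 10000 + (Real.log 4 + n * L / 5000) + ((1 - 1 / 400) * n * L) / 4 + (E + (L + 1) / 4000) +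
      (n - 2) * (E + (L + 1) / 4000 - L / 4) ≤ 0 := by
  have h1 : 0 < L := by linarith
  have h2 : 20000 * L ≤ n * L := by nlinarith
  have e : n * L / 10000 + (Real.log 4 + n * L / 5000) + ((1 - 1 / 400) * n * L) / 4 + (E + (L + 1) / 4000) +
      (n - 2) * (E + (L + 1) / 4000 - L / 4) =
      (Real.log 4 + n * E + n / 4000) - (3 / 40000) * (n * L) + L / 2 - E - (L + 1) / 4000 := by
    ring
  rw [e]
  linarith

/-- **LP0** -/
theorem lev_prob0
    (base_exp_of : ∃ C : ℝ, 1 ≤ C ∧ ∀ (d : ℕ) (γ : ℝ) (k : ℕ) (e : Fin k → Td d → ℝ) (U : Fin (k + 1) → ℝ) (α : Td d)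
      (r₀ a ρ δ cap s y Q : ℝ) (n M N P : ℕ) (β : Fin M → Td d), 0 < γ → (∀ i, Continuous (e i)) → U 0 ≠ 0 →
      0 < r₀ → SepR α r₀ (n + 2) M β → 1 ≤ N → 1 ≤ P → 2 * ((M * (n + 2) : ℕ) : ℝ) ≤ (2 * N * r₀) ^ (2 * P) → 1 ≤ |a| →
      0 < ρ → ρ ≤ 1 → 0 < δ → 0 ≤ y → y ≤ cap → 0 ≤ Q → 0 < s → s ≤ 1 →
      s ≤ |U 0| * Real.exp (-((P * N : ℝ) ^ γ)) / 20 →
      ∫⁻ w, ∏ l, (1 + ENNReal.ofReal Q *
        {b : ℕ → ℝ | rr a (n + 2) ρ δ cap b < y}.indicator 1 (sq α (frc γ e U w) (β l))) ∂lawL d ≤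
        (ENNReal.ofReal (Real.exp (n + 1) * (1 + Q * (4 / (δ * ρ ^ 2)) * Real.exp (y / 4) * (C / s) *
          (C / (s * |a| ^ (1 / 4 : ℝ))) ^ n))) ^ M)
    (rr_meas_of : ∀ (a : ℝ) (n : ℕ) {ρ δ cap : ℝ} (_ : 0 ≤ cap) (_ : 0 ≤ δ), Measurable (rr a n ρ δ cap))
    (amp_ok_of : ∀ {γ τ x : ℝ} (_ : 0 < d) (_ : 0 < γ) (_ : 1 / d ≤ τ) (_ : τ * γ < x) (D : ℝ) (_ : 0 < D),
      ∃ C : ℝ, 1 ≤ C ∧ ∀ (n M : ℕ) (α : Td d), 1 ≤ n → 1 ≤ M → (∀ j : ℕ, 1 ≤ j → D * (j : ℝ) ^ (-τ) ≤ ‖j • α‖) →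
        ∃ (r₀ : ℝ) (N P : ℕ) (β : Fin M → Td d), 0 < r₀ ∧ SepR α r₀ n M β ∧ 1 ≤ N ∧ 1 ≤ P ∧
          2 * ((M * n : ℕ) : ℝ) ≤ (2 * N * r₀) ^ (2 * P) ∧ ((P * N : ℝ)) ^ γ ≤ C * ((M * n : ℕ) : ℝ) ^ x)
    {γ τ x : ℝ} (hd : 0 < d) (hγ : 0 < γ) (h1 : 1 / d ≤ τ) (h2 : τ * γ < x) (_hx : x < 1) (G : ℝ) (hG : 1 ≤ G) :
    ∃ K : ℝ, ∀ n : ℕ, K ≤ n → ∀ D : ℝ, 0 < D → ∃ L₀ : ℝ, 1 ≤ L₀ ∧ ∀ L : ℝ, L₀ ≤ L →
      ∀ (k : ℕ) (e : Fin k → Td d → ℝ) (U : Fin (k + 1) → ℝ) (a : ℝ) (α : Td d) (y : ℝ), (∀ i, Continuous (e i)) →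
        Real.exp L ≤ |a| → |a| ≤ Real.exp (L + 1) → Real.exp (-((L + 1) / 4000)) ≤ |U 0| → DC D τ α → -(et 0 / 2 * n * L) ≤ y →
        lawL d {w | et 0 ≤ volume.real {θ : Td d | sq α (frc γ e U w) θ ∈ Ev0 a L n y}} ≤
          ENNReal.ofReal (Real.exp (-(G * n * L))) := by
  obtain ⟨C, hC, hbase⟩ := base_exp_of
  have hC0 : 0 < C := by linarith
  have hprob : IsProbabilityMeasure (volume : Measure (Td d)) := by
    have : IsProbabilityMeasure (volume : Measure UnitAddCircle) := ⟨by simp⟩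
    change IsProbabilityMeasure (Measure.pi fun _ : Fin d => (volume : Measure UnitAddCircle))
    infer_instance
  refine ⟨20000, fun n hn D hD => ?_⟩
  obtain ⟨CA, hCA, hamp⟩ := amp_ok_of (γ := γ) (τ := τ) (x := x) hd hγ h1 h2 D hD
  have hn0 : (0 : ℝ) < n := by linarith
  have hn2 : 2 ≤ n := by
    have : (2 : ℝ) ≤ n := by linarith
    exact_mod_cast this
  -- number of translates
  set M : ℕ := ⌈(10 : ℝ) ^ 7 * G⌉₊ with hMdef
  have hM : (10 : ℝ) ^ 7 * G ≤ M := Nat.le_ceil _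
  have hM1 : 1 ≤ M := by
    have : (1 : ℝ) ≤ M := by nlinarith
    exact_mod_cast this
  set BA : ℝ := CA * ((M * n : ℕ) : ℝ) ^ x with hBA
  have hBA0 : 0 ≤ BA := by positivity
  set E : ℝ := Real.log C + BA + Real.log 20 with hE
  have hE0 : 0 ≤ E := by
    have := Real.log_nonneg hC
    have := Real.log_nonneg (show (1 : ℝ) ≤ 20 by norm_num)
    positivity
  refine ⟨max (10 ^ 7) ((Real.log 4 + n * E + n / 4000) * 20000 / n), le_max_of_le_left (by norm_num), ?_⟩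
  intro L hL k e U a α y he ha1 ha2 hU0 hα hy
  have hL7 : (10 : ℝ) ^ 7 ≤ L := (le_max_left _ _).trans hL
  have hL1 : 1 ≤ L := by linarith
  have hL0 : 0 < L := by linarith
  have hnL : 0 < (n : ℝ) * L := mul_pos hn0 hL0
  have hEL : Real.log 4 + n * E + n / 4000 ≤ n * L / 20000 := by
    have h3 := (le_max_right _ _).trans hL
    rw [div_le_iff₀ hn0] at h3
    linarith
  -- the orbit pieces
  obtain ⟨r₀, N, P, β, hr₀, hS, hN, hP, hint, hPN⟩ := hamp n M α (by omega) hM1 hα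
  have hU : U 0 ≠ 0 := by
    intro h3
    rw [h3, abs_zero] at hU0
    exact absurd hU0 (not_le.2 (Real.exp_pos _))
  set s : ℝ := Real.exp (-((L + 1) / 4000)) * Real.exp (-BA) / 20 with hs
  have hs0 : 0 < s := by positivity
  have hs1 : s ≤ 1 := by
    have h3 : Real.exp (-((L + 1) / 4000)) ≤ 1 := Real.exp_le_one_iff.2 (by
      have : 0 ≤ (L + 1) / 4000 := by positivity
      linarith)
    have h4 : Real.exp (-BA) ≤ 1 := Real.exp_le_one_iff.2 (by linarith)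
    have h5 : Real.exp (-((L + 1) / 4000)) * Real.exp (-BA) ≤ 1 :=
      mul_le_one₀ h3 (Real.exp_pos _).le h4
    rw [hs]
    linarith
  have hs2 : s ≤ |U 0| * Real.exp (-((P * N : ℝ) ^ γ)) / 20 := by
    rw [hs]
    have h4 : Real.exp (-BA) ≤ Real.exp (-((P * N : ℝ) ^ γ)) := Real.exp_le_exp.2 (by linarith)
    have h5 := mul_le_mul hU0 h4 (Real.exp_pos _).le (abs_nonneg _)
    linarith
  set Q : ℝ := Real.exp (n * L / 10000) with hQ
  have hQ1 : 1 ≤ Q := Real.one_le_exp (by positivity)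
  have hlQ : Real.log Q = n * L / 10000 := Real.log_exp _
  set y' : ℝ := (1 - 1 / 400) * n * L with hy'
  set ρ : ℝ := Real.exp (-(pp 0 * n * L)) with hρ
  set δ : ℝ := Real.exp (-(2 * pp 0 * n * L)) with hδ
  have hpp : pp 0 = 1 / 20000 := rfl
  have het : et 0 = 1 / 200 := by
    unfold et
    norm_num
  have hρ0 : 0 < ρ := Real.exp_pos _
  have hρ1 : ρ ≤ 1 := Real.exp_le_one_iff.2 (by rw [hpp]; have := hnL; linarith)
  have hδ0 : 0 < δ := Real.exp_pos _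
  have ha : 1 ≤ |a| := (Real.one_le_exp (by linarith)).trans ha1
  have ha0 : 0 < |a| := by linarith
  -- the exceptional set
  set Dset : Set (Ow d × Td d) := {p | rr a n ρ δ (2 * n * L) (sq α (frc γ e U p.1) p.2) < y'} with hDset
  have hDm : MeasurableSet Dset :=
    measurableSet_lt ((rr_meas_of a n (by positivity) hδ0.le).comp (meas_sq α γ he U)) measurable_const
  obtain ⟨n', hn'⟩ : ∃ n', n = n' + 2 := ⟨n - 2, by omega⟩
  have hy0 : 0 ≤ y' := by rw [hy']; linarith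
  have hy2 : y' ≤ 2 * n * L := by rw [hy']; linarith
  set Bd : ℝ≥0∞ := (ENNReal.ofReal (Real.exp (n' + 1) * (1 + Q * (4 / (δ * ρ ^ 2)) * Real.exp (y' / 4) * (C / s) *
          (C / (s * |a| ^ (1 / 4 : ℝ))) ^ n'))) ^ M with hBd
  have hexp : ∀ θ : Td d, ∫⁻ w, ∏ l, (1 + ENNReal.ofReal Q * {w : Ow d | (w, θ + β l) ∈ Dset}.indicator 1 w) ∂lawL d ≤ Bd := by
    intro θ
    have h3 := hbase d γ k e U α r₀ a ρ δ (2 * n * L) s y' Q n' M N P (fun l => θ + β l) hγ he hU hr₀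
      (by rw [← hn']; exact Pool.Agent.Helper82.AN.SepR_add hS θ) hN hP (by rw [← hn']; exact hint) ha hρ0 hρ1 hδ0
      hy0 hy2 (by linarith) hs0 hs1 hs2
    rw [← hn'] at h3
    exact h3
  have hconc := Pool.Agent.Helper33.AF.conc hDm hQ1 hexp (et 0)
  refine (measure_mono ?_).trans (hconc.trans ?_)
  · intro w hw
    refine le_trans (show et 0 ≤ volume.real {θ : Td d | sq α (frc γ e U w) θ ∈ Ev0 a L n y} from hw) ?_
    refine measureReal_mono ?_ (measure_ne_top _ _)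
    intro θ hθ
    show rr a n ρ δ (2 * n * L) (sq α (frc γ e U w) θ) < y'
    have h3 : rr a n ρ δ (2 * n * L) (sq α (frc γ e U w) θ) < (1 - et 0) * n * L - y := hθ
    rw [het] at h3 hy
    rw [hy']
    linarith
  · -- numbers
    have hx1 : Q * (4 / (δ * ρ ^ 2)) * Real.exp (y' / 4) * (C / s) * (C / (s * |a| ^ (1 / 4 : ℝ))) ^ n' ≤ 1 := by
      have e1 : 4 / (δ * ρ ^ 2) = Real.exp (Real.log 4 + n * L / 5000) := by
        rw [Real.exp_add, Real.exp_log (by norm_num), hδ, hρ, ← Real.exp_nat_mul, ← Real.exp_add, div_eq_mul_inv,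
          ← Real.exp_neg, hpp]
        congr 2
        push_cast
        ring
      have e2 : C / s = Real.exp (E + (L + 1) / 4000) := by
        rw [hE, hs, Real.exp_add, Real.exp_add, Real.exp_add, Real.exp_log hC0, Real.exp_log (by norm_num),
          Real.exp_neg, Real.exp_neg]
        field_simp
      have e3 : C / (s * |a| ^ (1 / 4 : ℝ)) ≤ Real.exp (E + (L + 1) / 4000 - L / 4) := by
        rw [Real.exp_sub, ← e2, ← div_div]
        refine div_le_div_of_nonneg_left (by positivity) (Real.exp_pos _) ?_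
        calc Real.exp (L / 4) = (Real.exp L) ^ (1 / 4 : ℝ) := by
              rw [← Real.exp_mul]
              congr 1
              ring
          _ ≤ |a| ^ (1 / 4 : ℝ) := Real.rpow_le_rpow (Real.exp_pos _).le ha1 (by norm_num)
      have e4 : (C / (s * |a| ^ (1 / 4 : ℝ))) ^ n' ≤ Real.exp ((n - 2) * (E + (L + 1) / 4000 - L / 4)) := by
        have h5 : (n : ℝ) - 2 = n' := by
          rw [hn']
          push_cast
          ring
        rw [h5, Real.exp_nat_mul]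
        exact pow_le_pow_left₀ (by positivity) e3 _
      calc Q * (4 / (δ * ρ ^ 2)) * Real.exp (y' / 4) * (C / s) * (C / (s * |a| ^ (1 / 4 : ℝ))) ^ n'
          ≤ Q * (4 / (δ * ρ ^ 2)) * Real.exp (y' / 4) * (C / s) * Real.exp ((n - 2) * (E + (L + 1) / 4000 - L / 4)) :=
            mul_le_mul_of_nonneg_left e4 (by positivity)
        _ = Real.exp (n * L / 10000 + (Real.log 4 + n * L / 5000) + ((1 - 1 / 400) * n * L) / 4 + (E + (L + 1) / 4000) +
              (n - 2) * (E + (L + 1) / 4000 - L / 4)) := by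
            rw [e1, e2, hQ, hy', ← Real.exp_add, ← Real.exp_add, ← Real.exp_add, ← Real.exp_add]
        _ ≤ 1 := Real.exp_le_one_iff.2 (num0 hn hL1 hE0 hEL)
    have hx2 : Real.exp ((n' : ℝ) + 1) * (1 + Q * (4 / (δ * ρ ^ 2)) * Real.exp (y' / 4) * (C / s) *
        (C / (s * |a| ^ (1 / 4 : ℝ))) ^ n') ≤ Real.exp n := by
      have h5 : (n : ℝ) = (n' : ℝ) + 1 + 1 := by
        rw [hn']
        push_cast
        ring
      rw [h5, Real.exp_add ((n' : ℝ) + 1) 1]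
      refine mul_le_mul_of_nonneg_left ?_ (Real.exp_pos _).le
      have h6 := Real.add_one_le_exp (1 : ℝ)
      linarith
    have hx3 : Bd ≤ ENNReal.ofReal (Real.exp (M * n)) := by
      rw [hBd, Real.exp_nat_mul, ENNReal.ofReal_pow (Real.exp_pos _).le]
      exact pow_le_pow_left' (ENNReal.ofReal_le_ofReal hx2) _
    calc Bd * ENNReal.ofReal (Real.exp (-(M * et 0 * Real.log Q)))
        ≤ ENNReal.ofReal (Real.exp (M * n)) * ENNReal.ofReal (Real.exp (-(M * et 0 * Real.log Q))) := by gcongr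
      _ = ENNReal.ofReal (Real.exp (M * n + -(M * et 0 * Real.log Q))) := by
          rw [← ENNReal.ofReal_mul (Real.exp_pos _).le, ← Real.exp_add]
      _ ≤ ENNReal.ofReal (Real.exp (-(G * n * L))) := by
          refine ENNReal.ofReal_le_ofReal (Real.exp_le_exp.2 ?_)
          rw [hlQ, het]
          have h5 : (M : ℝ) * n * 10 ^ 7 ≤ M * n * L := mul_le_mul_of_nonneg_left hL7 (by positivity)
          have h6 : (10 : ℝ) ^ 7 * G * (n * L) ≤ M * (n * L) := mul_le_mul_of_nonneg_right hM hnL.le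
          nlinarith

end Pool.Agent.Helper94.AF
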